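import Mathlib

set_option autoImplicit false

namespace Pool.Agent.Q199.Ultra

open Filter Topology Cardinal
open scoped ENNReal

universe u

/-- The density character: the least cardinality of a dense subset. -/
noncomputable def dens (E : Type u) [TopologicalSpace E] : Cardinal.{u} :=
  sInf {c : Cardinal.{u} | ∃ S : Set E, Dense S ∧ #S = c}

section Ultrafilters

variable {I : Type u} (U : Ultrafilter I)

/-- The ultrafilter `U` is countably incomplete: there are `J 0 ⊇ J 1 ⊇ ⋯` in `U` with empty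
intersection. -/
def CountablyIncomplete : Prop :=
  ∃ J : ℕ → Set I, (∀ n, J n ∈ U) ∧ Antitone J ∧ ⋂ n, J n = ∅

open Classical in
/-- The ultrafilter `U` is `κ`-good: for every set `S` of cardinality `< κ` every decreasing map
`f` from the finite subsets of `S` to `U` has a multiplicative refinement `g`. -/
def IsGood (κ : Cardinal.{u}) : Prop :=
  ∀ S : Type u, #S < κ → ∀ f : Finset S → Set I, (∀ A, f A ∈ U) →
    (∀ A B, A ⊆ B → f B ⊆ f A) →
    ∃ g : Finset S → Set I, (∀ A, g A ∈ U) ∧ (∀ A, g A ⊆ f A) ∧ ∀ A B, g (A ∪ B) = g A ∩ g B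

end Ultrafilters

section Ultraproduct

variable (𝕜 : Type) [RCLike 𝕜] {I : Type u} (U : Ultrafilter I) (X : I → Type u)
  [∀ i, NormedAddCommGroup (X i)] [∀ i, NormedSpace 𝕜 (X i)]

/-- The subspace of the bounded families `x` with `lim_U ‖x i‖ = 0`. -/
def nullSub : Submodule 𝕜 (lp X ∞) where
  carrier := {x | Tendsto (fun i => ‖x i‖) (U : Filter I) (𝓝 0)}
  zero_mem' := by simp
  add_mem' := by
    intro a b ha hb
    refine squeeze_zero (fun i => norm_nonneg _) (fun i => norm_add_le (a i) (b i)) ?_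
    simpa using Filter.Tendsto.add ha hb
  smul_mem' := by
    intro c a ha
    have h : (fun i => ‖(c • a) i‖) = fun i => ‖c‖ * ‖a i‖ := by
      funext i
      rw [lp.coeFn_smul, Pi.smul_apply, norm_smul]
    show Tendsto (fun i => ‖(c • a) i‖) (U : Filter I) (𝓝 0)
    rw [h]
    simpa using Filter.Tendsto.const_mul ‖c‖ ha

lemma nullSub_closed : IsClosed (nullSub 𝕜 U X : Set (lp X ∞)) := by
  refine isClosed_of_closure_subset fun x hx => ?_
  show Tendsto (fun i => ‖x i‖) (U : Filter I) (𝓝 0)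
  rw [Metric.tendsto_nhds]
  intro ε hε
  obtain ⟨y, hy, hxy⟩ := Metric.mem_closure_iff.1 hx (ε / 2) (half_pos hε)
  have hy' : Tendsto (fun i => ‖y i‖) (U : Filter I) (𝓝 0) := hy
  filter_upwards [Metric.tendsto_nhds.1 hy' (ε / 2) (half_pos hε)] with i hi
  rw [Real.dist_eq, sub_zero, abs_norm] at hi ⊢
  have h1 : ‖(x - y) i‖ ≤ ‖x - y‖ := lp.norm_apply_le_norm (by simp) _ _
  have h2 : x i = (x - y) i + y i := by simp
  rw [dist_eq_norm] at hxy
  calc ‖x i‖ = ‖(x - y) i + y i‖ := by rw [← h2]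
    _ ≤ ‖(x - y) i‖ + ‖y i‖ := norm_add_le _ _
    _ < ε := by linarith

/-- The Banach ultraproduct of the family `X` over `U`: the quotient of the space of bounded
families (with the supremum norm) by the families with `lim_U ‖x i‖ = 0`. -/
def UProd : Type u := lp X ∞ ⧸ nullSub 𝕜 U X

noncomputable instance : NormedAddCommGroup (UProd 𝕜 U X) :=
  haveI : IsClosed (nullSub 𝕜 U X : Set (lp X ∞)) := nullSub_closed 𝕜 U X
  inferInstanceAs (NormedAddCommGroup (lp X ∞ ⧸ nullSub 𝕜 U X))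

noncomputable instance : NormedSpace 𝕜 (UProd 𝕜 U X) :=
  inferInstanceAs (NormedSpace 𝕜 (lp X ∞ ⧸ nullSub 𝕜 U X))

end Ultraproduct

section Spaces

variable (𝕜 : Type) [RCLike 𝕜] (E : Type u) [NormedAddCommGroup E] [NormedSpace 𝕜 E]

/-- Every finite-dimensional subspace of `E` lies in a finite-dimensional subspace `G` with an
isomorphism `e : G → ℓ_∞^m` such that `‖e‖ ‖e⁻¹‖ ≤ lam`. -/
def IsLinfty (lam : ℝ) : Prop :=
  ∀ F : Submodule 𝕜 E, FiniteDimensional 𝕜 F →
    ∃ G : Submodule 𝕜 E, FiniteDimensional 𝕜 G ∧ F ≤ G ∧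
      ∃ (m : ℕ) (e : G ≃L[𝕜] (Fin m → 𝕜)),
        ‖(e : G →L[𝕜] (Fin m → 𝕜))‖ * ‖(e.symm : (Fin m → 𝕜) →L[𝕜] G)‖ ≤ lam

/-- `E` is a Lindenstrauss space: it is an `IsLinfty lam` space for every `lam > 1`. -/
def IsLindenstrauss : Prop := ∀ lam : ℝ, 1 < lam → IsLinfty 𝕜 E lam

/-- `E` is universally `(lam, κ)`-injective: every operator `t : Y → E` on a closed subspace `Y`
of density `< κ` of any Banach space `W` has an extension `T : W → E` with
`‖T‖ ≤ lam * ‖t‖`. -/
def IsUnivInjective (lam : ℝ) (κ : Cardinal.{u}) : Prop :=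
  ∀ (W : Type u) [NormedAddCommGroup W] [NormedSpace 𝕜 W] [CompleteSpace W] (Y : Submodule 𝕜 W),
    IsClosed (Y : Set W) → dens Y < κ → ∀ t : Y →L[𝕜] E,
      ∃ T : W →L[𝕜] E, (∀ y : Y, T (y : W) = t y) ∧ ‖T‖ ≤ lam * ‖t‖

end Spaces

end Pool.Agent.Q199.Ultra
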