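import Mathlib
import Pool.Agent.Q199.Ultra.Defs

set_option autoImplicit false

namespace Pool.Agent.Q199.Ultra

open Filter Topology
open scoped ENNReal

universe u

variable {𝕜 : Type} [RCLike 𝕜]

section UP

variable {I : Type u} {U : Ultrafilter I} {X : I → Type u}
  [∀ i, NormedAddCommGroup (X i)] [∀ i, NormedSpace 𝕜 (X i)]

variable (𝕜 U X) in
/-- the class of a bounded family -/
noncomputable def mkU : lp X ∞ →ₗ[𝕜] UProd 𝕜 U X := (nullSub 𝕜 U X).mkQ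

lemma mkU_surj (z : UProd 𝕜 U X) : ∃ x, mkU 𝕜 U X x = z := Submodule.mkQ_surjective _ z

lemma mkU_eq_iff (x y : lp X ∞) : mkU 𝕜 U X x = mkU 𝕜 U X y ↔
    Tendsto (fun i => ‖(x - y) i‖) (U : Filter I) (𝓝 0) :=
  Submodule.Quotient.eq _

lemma mkU_norm_le (x : lp X ∞) : ‖mkU 𝕜 U X x‖ ≤ ‖x‖ :=
  Submodule.Quotient.norm_mk_le (S := nullSub 𝕜 U X) x

lemma exists_rep (z : UProd 𝕜 U X) {ε : ℝ} (hε : 0 < ε) :
    ∃ x : lp X ∞, mkU 𝕜 U X x = z ∧ ‖x‖ < ‖z‖ + ε :=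
  Submodule.Quotient.norm_mk_lt (S := nullSub 𝕜 U X) z hε

/-- the norm of the class controls the coordinates eventually -/
lemma eventually_le (x : lp X ∞) {r : ℝ} (hr : ‖mkU 𝕜 U X x‖ < r) :
    ∀ᶠ i in (U : Filter I), ‖x i‖ ≤ r := by
  obtain ⟨ε, hε⟩ : ∃ ε, ε = (r - ‖mkU 𝕜 U X x‖) / 2 := ⟨_, rfl⟩
  have hε0 : 0 < ε := by rw [hε]; linarith
  obtain ⟨m, hm, hmn⟩ := exists_rep (mkU 𝕜 U X x) hε0
  have h := (mkU_eq_iff x m).1 hm.symm
  filter_upwards [Metric.tendsto_nhds.1 h ε hε0] with i hi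
  rw [Real.dist_eq, sub_zero, abs_norm] at hi
  have h1 : ‖m i‖ ≤ ‖m‖ := lp.norm_apply_le_norm (by simp) _ _
  have h2 : x i = (x - m) i + m i := by simp
  calc ‖x i‖ = ‖(x - m) i + m i‖ := by rw [← h2]
    _ ≤ ‖(x - m) i‖ + ‖m i‖ := norm_add_le _ _
    _ ≤ r := by linarith

/-- an eventual bound for the coordinates bounds the norm of the class -/
lemma mkU_norm_le_of_eventually (x : lp X ∞) {r : ℝ} (hr : 0 ≤ r)
    (h : ∀ᶠ i in (U : Filter I), ‖x i‖ ≤ r) : ‖mkU 𝕜 U X x‖ ≤ r := by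
  classical
  let y0 : ∀ i, X i := fun i => if ‖x i‖ ≤ r then x i else 0
  have hy0 : ∀ i, ‖y0 i‖ ≤ r := by
    intro i
    by_cases hi : ‖x i‖ ≤ r
    · simp only [y0, hi, if_true]
    · simp only [y0, hi, if_false, norm_zero]; exact hr
  let y : lp X ∞ := ⟨y0, memℓp_infty ⟨r, by rintro _ ⟨i, rfl⟩; exact hy0 i⟩⟩
  have hyr : ‖y‖ ≤ r := lp.norm_le_of_forall_le hr hy0
  have hxy : mkU 𝕜 U X x = mkU 𝕜 U X y := by
    rw [mkU_eq_iff]
    refine tendsto_const_nhds.congr' ?_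
    filter_upwards [h] with i hi
    have : y i = x i := by
      show y0 i = x i
      simp only [y0, hi, if_true]
    simp [this]
  rw [hxy]
  exact (mkU_norm_le y).trans hyr

/-- Lifting of a finite-dimensional subspace. -/
lemma exists_lift (G : Submodule 𝕜 (UProd 𝕜 U X)) [FiniteDimensional 𝕜 G] {δ : ℝ} (hδ : 0 < δ) :
    ∃ φ : G →L[𝕜] lp X ∞, (∀ g : G, mkU 𝕜 U X (φ g) = g) ∧
      ∀ᶠ i in (U : Filter I), ∀ g : G, ‖φ g i‖ ≤ (1 + δ) * ‖g‖ := by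
  classical
  let b := Module.finBasis 𝕜 G
  choose rep hrep using fun j => mkU_surj ((b j : G) : UProd 𝕜 U X)
  let φ0 : G →ₗ[𝕜] lp X ∞ := b.constr 𝕜 rep
  have hφ0 : ∀ g : G, mkU 𝕜 U X (φ0 g) = g := by
    have h : (mkU 𝕜 U X).comp φ0 = G.subtype := by
      refine b.ext fun j => ?_
      rw [LinearMap.comp_apply, Module.Basis.constr_basis]
      exact hrep j
    intro g
    exact LinearMap.congr_fun h g
  let φ : G →L[𝕜] lp X ∞ := LinearMap.toContinuousLinearMap φ0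
  have hφ : ∀ g : G, mkU 𝕜 U X (φ g) = g := hφ0
  refine ⟨φ, hφ, ?_⟩
  obtain ⟨K, hK⟩ : ∃ K, K = ‖φ‖ + 1 := ⟨_, rfl⟩
  have hKpos : 0 < K := by rw [hK]; positivity
  have hproper : ProperSpace G := FiniteDimensional.proper_rclike 𝕜 G
  obtain ⟨t, ht, htf, htc⟩ := (isCompact_sphere (0 : G) 1).finite_cover_balls
    (show 0 < δ / (2 * K) by positivity)
  have hev : ∀ᶠ i in (U : Filter I), ∀ z ∈ t, ‖φ z i‖ ≤ 1 + δ / 2 := by
    rw [Filter.eventually_all_finite htf]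
    intro z hz
    refine eventually_le (𝕜 := 𝕜) (φ z) ?_
    rw [hφ]
    have h1 : ‖z‖ = 1 := by simpa using ht hz
    have h2 : ‖(z : UProd 𝕜 U X)‖ = ‖z‖ := rfl
    rw [h2, h1]; linarith
  filter_upwards [hev] with i hi g
  by_cases hg : g = 0
  · rw [hg, map_zero]; simp
  · have hgn : 0 < ‖g‖ := norm_pos_iff.2 hg
    let e : G := ((‖g‖⁻¹ : ℝ) : 𝕜) • g
    have he : e ∈ Metric.sphere (0 : G) 1 := by
      rw [mem_sphere_zero_iff_norm, norm_smul, RCLike.norm_ofReal, abs_of_nonneg (by positivity)]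
      exact inv_mul_cancel₀ hgn.ne'
    obtain ⟨z, hz, hez⟩ := Set.mem_iUnion₂.1 (htc he)
    have h1 := hi z hz
    have h2 : ‖φ (e - z) i‖ ≤ δ / 2 := by
      have h3 : ‖e - z‖ < δ / (2 * K) := by
        have := Metric.mem_ball.1 hez
        rwa [dist_eq_norm] at this
      have h4 : ‖φ (e - z) i‖ ≤ ‖φ (e - z)‖ := lp.norm_apply_le_norm (by simp) _ _
      have h5 : ‖φ (e - z)‖ ≤ ‖φ‖ * ‖e - z‖ := φ.le_opNorm _
      have h6 : ‖φ‖ * ‖e - z‖ ≤ K * (δ / (2 * K)) :=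
        mul_le_mul (by rw [hK]; linarith) h3.le (norm_nonneg _) hKpos.le
      have h7 : K * (δ / (2 * K)) = δ / 2 := by field_simp
      linarith
    have h8 : ‖φ e i‖ ≤ 1 + δ := by
      have h9 : φ e i = φ (e - z) i + φ z i := by
        rw [map_sub]; simp
      rw [h9]
      refine (norm_add_le _ _).trans ?_
      linarith
    have h10 : φ e i = ((‖g‖⁻¹ : ℝ) : 𝕜) • φ g i := by
      show φ (((‖g‖⁻¹ : ℝ) : 𝕜) • g) i = _
      rw [map_smul, lp.coeFn_smul, Pi.smul_apply]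
    rw [h10, norm_smul, RCLike.norm_ofReal, abs_of_nonneg (by positivity)] at h8
    rwa [inv_mul_le_iff₀ hgn, mul_comm] at h8

end UP

/-- Extension of operators into spaces isomorphic to `ℓ_∞^m`. -/
lemma exists_ext {W G : Type*} [NormedAddCommGroup W] [NormedSpace 𝕜 W] [NormedAddCommGroup G]
    [NormedSpace 𝕜 G] (F : Submodule 𝕜 W) {m : ℕ} (e : G ≃L[𝕜] (Fin m → 𝕜)) (s : F →L[𝕜] G) :
    ∃ S : W →L[𝕜] G, (∀ x : F, S x = s x) ∧
      ‖S‖ ≤ ‖(e : G →L[𝕜] (Fin m → 𝕜))‖ * ‖(e.symm : (Fin m → 𝕜) →L[𝕜] G)‖ * ‖s‖ := by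
  have hext : ∀ j : Fin m, ∃ g : W →L[𝕜] 𝕜,
      (∀ x : F, g x = (e (s x)) j) ∧ ‖g‖ ≤ ‖(e : G →L[𝕜] (Fin m → 𝕜))‖ * ‖s‖ := by
    intro j
    obtain ⟨g, hg, hgn⟩ := exists_extension_norm_eq F
      ((ContinuousLinearMap.proj (R := 𝕜) (φ := fun _ : Fin m => 𝕜) j).comp
        ((e : G →L[𝕜] (Fin m → 𝕜)).comp s))
    refine ⟨g, fun x => hg x, ?_⟩
    rw [hgn]
    refine ContinuousLinearMap.opNorm_le_bound _ (by positivity) fun x => ?_
    calc ‖(e (s x)) j‖ ≤ ‖e (s x)‖ := norm_le_pi_norm _ j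
      _ ≤ ‖(e : G →L[𝕜] (Fin m → 𝕜))‖ * ‖s x‖ :=
        (e : G →L[𝕜] (Fin m → 𝕜)).le_opNorm _
      _ ≤ ‖(e : G →L[𝕜] (Fin m → 𝕜))‖ * (‖s‖ * ‖x‖) :=
        mul_le_mul_of_nonneg_left (s.le_opNorm x) (norm_nonneg _)
      _ = _ := by ring
  choose g hg hgn using hext
  let R : W →L[𝕜] (Fin m → 𝕜) := ContinuousLinearMap.pi g
  refine ⟨(e.symm : (Fin m → 𝕜) →L[𝕜] G).comp R, ?_, ?_⟩
  · intro x
    show e.symm (R x) = s x
    rw [ContinuousLinearEquiv.symm_apply_eq]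
    funext j
    exact hg j x
  · have hR : ‖R‖ ≤ ‖(e : G →L[𝕜] (Fin m → 𝕜))‖ * ‖s‖ := by
      refine ContinuousLinearMap.opNorm_le_bound _ (by positivity) fun x => ?_
      refine (pi_norm_le_iff_of_nonneg (by positivity)).2 fun j => ?_
      show ‖g j x‖ ≤ _
      exact ((g j).le_opNorm x).trans (mul_le_mul_of_nonneg_right (hgn j) (norm_nonneg _))
    calc ‖(e.symm : (Fin m → 𝕜) →L[𝕜] G).comp R‖
        ≤ ‖(e.symm : (Fin m → 𝕜) →L[𝕜] G)‖ * ‖R‖ := ContinuousLinearMap.opNorm_comp_le _ _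
      _ ≤ ‖(e.symm : (Fin m → 𝕜) →L[𝕜] G)‖ * (‖(e : G →L[𝕜] (Fin m → 𝕜))‖ * ‖s‖) :=
        mul_le_mul_of_nonneg_left hR (norm_nonneg _)
      _ = _ := by ring

end Pool.Agent.Q199.Ultra
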