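import Mathlib
import Pool.Agent.Q199.Ultra.Defs
import Pool.Agent.Q199.Ultra.Basic

set_option autoImplicit false

namespace Pool.Agent.Q199.Ultra

open Filter Topology Cardinal
open scoped ENNReal

universe u

variable {𝕜 : Type} [RCLike 𝕜] {I : Type u} {U : Ultrafilter I} {X : I → Type u}
  [∀ i, NormedAddCommGroup (X i)] [∀ i, NormedSpace 𝕜 (X i)]

/-- The local step: approximate extensions exist for `U`-many coordinates. -/
lemma local_ext {lam : ℝ} (hL : ∀ μ, lam < μ → IsLinfty 𝕜 (UProd 𝕜 U X) μ)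
    {W : Type u} [NormedAddCommGroup W] [NormedSpace 𝕜 W] (Y : Submodule 𝕜 W)
    (t : Y →L[𝕜] UProd 𝕜 U X) (A : Finset Y) (τ : Y → lp X ∞)
    (hτ : ∀ y, mkU 𝕜 U X (τ y) = t y) {η : ℝ} (hη : 0 < η) :
    ∀ᶠ i in (U : Filter I), ∃ T : W →L[𝕜] X i, ‖T‖ ≤ lam * ‖t‖ + η ∧
      ∀ y ∈ A, ‖T (y : W) - τ y i‖ ≤ η := by
  classical
  -- parameters `μ > lam` and `δ > 0`
  obtain ⟨δ, hδ0, hδ⟩ : ∃ δ : ℝ, 0 < δ ∧ (1 + δ) * ((lam + δ) * ‖t‖) ≤ lam * ‖t‖ + η := by
    have hc : ContinuousAt (fun δ : ℝ => (1 + δ) * ((lam + δ) * ‖t‖)) 0 := by fun_prop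
    have h1 := hc.eventually (gt_mem_nhds (show (1 + 0) * ((lam + 0) * ‖t‖) < lam * ‖t‖ + η by
      simp; exact hη))
    obtain ⟨r, hr, hr'⟩ := Metric.eventually_nhds_iff.1 h1
    refine ⟨r / 2, by positivity, le_of_lt (hr' ?_)⟩
    rw [Real.dist_eq, sub_zero, abs_of_pos (by positivity)]
    linarith
  let F0 : Submodule 𝕜 Y := Submodule.span 𝕜 (A : Set Y)
  have hF0 : FiniteDimensional 𝕜 F0 := FiniteDimensional.span_finset 𝕜 A
  let F : Submodule 𝕜 W := F0.map Y.subtype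
  have hFY : F ≤ Y := by
    rintro _ ⟨y, _, rfl⟩; exact y.2
  obtain ⟨G, hGfd, hFG, m, e, he⟩ := hL (lam + δ) (by linarith) (F0.map (t : Y →ₗ[𝕜] UProd 𝕜 U X))
    inferInstance
  have htG : ∀ x : F, t ⟨(x : W), hFY x.2⟩ ∈ G := by
    rintro ⟨_, y, hy, rfl⟩
    exact hFG ⟨y, hy, rfl⟩
  let s : F →L[𝕜] G := (t.comp ((F.subtypeL).codRestrict Y (fun x => hFY x.2))).codRestrict G htG
  have hs : ∀ x : F, ((s x : G) : UProd 𝕜 U X) = t ⟨(x : W), hFY x.2⟩ := fun _ => rfl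
  have hsn : ‖s‖ ≤ ‖t‖ := by
    refine ContinuousLinearMap.opNorm_le_bound _ (norm_nonneg _) fun x => ?_
    have h1 : ‖s x‖ = ‖t ⟨(x : W), hFY x.2⟩‖ := rfl
    rw [h1]
    exact t.le_opNorm _
  obtain ⟨S, hS, hSn⟩ := exists_ext F e s
  have hSn' : ‖S‖ ≤ (lam + δ) * ‖t‖ := by
    refine hSn.trans (mul_le_mul he hsn (norm_nonneg _) ?_)
    exact le_trans (by positivity) he
  obtain ⟨φ, hφ, hφev⟩ := exists_lift G hδ0
  -- the coordinates of the lifting agree with the given representatives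
  have hclose : ∀ᶠ i in (U : Filter I), ∀ y ∈ A, ‖(φ (S (y : W)) - τ y) i‖ ≤ η := by
    rw [Filter.eventually_all_finset]
    intro y hy
    have hyF : (y : W) ∈ F := ⟨y, Submodule.subset_span hy, rfl⟩
    have h1 : mkU 𝕜 U X (φ (S (y : W))) = mkU 𝕜 U X (τ y) := by
      rw [hφ, hτ, hS ⟨(y : W), hyF⟩, hs]
    have h2 := (mkU_eq_iff _ _).1 h1
    filter_upwards [Metric.tendsto_nhds.1 h2 η hη] with i hi
    rw [Real.dist_eq, sub_zero, abs_norm] at hi
    exact hi.le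
  filter_upwards [hφev, hclose] with i h1 h2
  refine ⟨(lp.evalCLM 𝕜 X ∞ i).comp (φ.comp S), ?_, ?_⟩
  · refine le_trans (ContinuousLinearMap.opNorm_le_bound _ (M := (1 + δ) * ((lam + δ) * ‖t‖)) ?_
      fun x => ?_) hδ
    · exact mul_nonneg (by linarith) (le_trans (norm_nonneg _) hSn')
    · show ‖φ (S x) i‖ ≤ _
      calc ‖φ (S x) i‖ ≤ (1 + δ) * ‖S x‖ := h1 _
        _ ≤ (1 + δ) * (((lam + δ) * ‖t‖) * ‖x‖) := by
          refine mul_le_mul_of_nonneg_left ?_ (by linarith)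
          exact (S.le_opNorm x).trans (mul_le_mul_of_nonneg_right hSn' (norm_nonneg _))
        _ = _ := by ring
  · intro y hy
    exact h2 y hy

/-- The main theorem. -/
theorem univInjective {κ : Cardinal.{u}} (hκ : ℵ₀ < κ) (hinc : CountablyIncomplete U)
    (hgood : IsGood U κ) {lam : ℝ} (hlam : 0 ≤ lam)
    (hL : ∀ μ, lam < μ → IsLinfty 𝕜 (UProd 𝕜 U X) μ) :
    IsUnivInjective 𝕜 (UProd 𝕜 U X) lam κ := by
  classical
  intro W _ _ _ Y hY hdens t
  -- a dense subset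
  obtain ⟨D, hD, hDcard⟩ : ∃ D : Set Y, Dense D ∧ #D < κ := by
    have hne : {c : Cardinal.{u} | ∃ S : Set Y, Dense S ∧ #S = c}.Nonempty :=
      ⟨_, Set.univ, dense_univ, rfl⟩
    obtain ⟨D, hD, hc⟩ := csInf_mem hne
    exact ⟨D, hD, by rw [hc]; exact hdens⟩
  let S : Type u := D ⊕ ULift.{u} ℕ
  have hS : #S < κ := by
    have h1 : #S = #D + ℵ₀ := by
      simp [S]
    rw [h1]
    exact Cardinal.add_lt_of_lt hκ.le hDcard hκ
  let v : S → Y := fun s => Sum.elim (fun d : D => (d : Y)) (fun _ => 0) s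
  choose τ hτ using fun y : Y => mkU_surj (t y)
  obtain ⟨J, hJU, hJa, hJe⟩ := hinc
  let ok : Finset S → I → Prop := fun A i => ∃ T : W →L[𝕜] X i,
    ‖T‖ ≤ lam * ‖t‖ + 1 / ((A.card : ℝ) + 1) ∧
      ∀ s ∈ A, ‖T (v s : W) - τ (v s) i‖ ≤ 1 / ((A.card : ℝ) + 1)
  let f : Finset S → Set I := fun A => J A.card ∩ {i | ok A i}
  have hf : ∀ A, f A ∈ U := by
    intro A
    refine Filter.inter_mem (hJU _) ?_
    have hpos : (0 : ℝ) < 1 / ((A.card : ℝ) + 1) := by positivity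
    have h := local_ext hL Y t (A.image v) τ hτ hpos
    filter_upwards [h] with i hi
    obtain ⟨T, hT1, hT2⟩ := hi
    exact ⟨T, hT1, fun s hs => hT2 (v s) (Finset.mem_image_of_mem v hs)⟩
  have hfm : ∀ A B, A ⊆ B → f B ⊆ f A := by
    intro A B hAB i hi
    have hcard : A.card ≤ B.card := Finset.card_le_card hAB
    have hle : 1 / ((B.card : ℝ) + 1) ≤ 1 / ((A.card : ℝ) + 1) :=
      one_div_le_one_div_of_le (by positivity) (by exact_mod_cast Nat.succ_le_succ hcard)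
    refine ⟨hJa hcard hi.1, ?_⟩
    obtain ⟨T, hT1, hT2⟩ := hi.2
    exact ⟨T, hT1.trans (by linarith), fun s hs => (hT2 s (hAB hs)).trans hle⟩
  obtain ⟨g, hgU, hgf, hgm⟩ := hgood S hS f hf hfm
  have hgm' : ∀ A B : Finset S, g (A ∪ B) = g A ∩ g B := by
    intro A B
    refine Eq.trans (congrArg g ?_) (hgm A B)
    ext x
    simp only [Finset.mem_union]
  -- membership in `g A`
  have hgA : ∀ (i : I) (A : Finset S), A.Nonempty → (∀ s ∈ A, i ∈ g {s}) → i ∈ g A := by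
    intro i A hA
    induction hA using Finset.Nonempty.cons_induction with
    | singleton a => intro h; exact h a (Finset.mem_singleton_self a)
    | cons a s ha hs ih =>
      intro h
      rw [Finset.cons_eq_insert, Finset.insert_eq, hgm']
      exact ⟨h a (by simp), ih fun x hx => h x (by simp [hx])⟩
  -- finiteness
  have hfin : ∀ i, {s : S | i ∈ g {s}}.Finite := by
    intro i
    obtain ⟨n, hn⟩ : ∃ n, i ∉ J n := by
      by_contra hcon
      push Not at hcon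
      have : i ∈ ⋂ n, J n := Set.mem_iInter.2 hcon
      rw [hJe] at this
      exact this
    by_contra hinf
    obtain ⟨A, hA, hAc⟩ := Set.Infinite.exists_subset_card_eq hinf (n + 1)
    have hAne : A.Nonempty := Finset.card_pos.1 (by omega)
    have h1 : i ∈ g A := hgA i A hAne fun s hs => hA hs
    have h2 : i ∈ J A.card := (hgf A h1).1
    exact hn (hJa (by omega) h2)
  let Ai : I → Finset S := fun i => (hfin i).toFinset
  have hAi : ∀ i s, s ∈ Ai i ↔ i ∈ g {s} := fun i s => by simp [Ai]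
  -- choice of the operators
  have hT : ∀ i, ∃ T : W →L[𝕜] X i, ‖T‖ ≤ lam * ‖t‖ + 1 / (((Ai i).card : ℝ) + 1) ∧
      ((Ai i).Nonempty → ∀ s ∈ Ai i, ‖T (v s : W) - τ (v s) i‖ ≤ 1 / (((Ai i).card : ℝ) + 1)) := by
    intro i
    by_cases hne : (Ai i).Nonempty
    · have h1 : i ∈ g (Ai i) := hgA i (Ai i) hne fun s hs => (hAi i s).1 hs
      obtain ⟨T, hT1, hT2⟩ := (hgf _ h1).2
      exact ⟨T, hT1, fun _ => hT2⟩
    · exact ⟨0, by rw [norm_zero]; positivity, fun h => absurd h hne⟩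
  choose T hT1 hT2 using hT
  have hTb : ∀ i, ‖T i‖ ≤ lam * ‖t‖ + 1 := by
    intro i
    refine (hT1 i).trans ?_
    have : 1 / (((Ai i).card : ℝ) + 1) ≤ 1 := by
      rw [div_le_one (by positivity)]
      have : (0 : ℝ) ≤ (Ai i).card := Nat.cast_nonneg _
      linarith
    linarith
  -- the cardinalities tend to infinity
  have hcard : ∀ n : ℕ, ∀ᶠ i in (U : Filter I), n + 1 ≤ (Ai i).card := by
    intro n
    let B : Finset S := (Finset.range (n + 1)).image fun k => Sum.inr (ULift.up k)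
    have hBc : B.card = n + 1 := by
      rw [Finset.card_image_of_injective, Finset.card_range]
      intro a b hab
      exact congrArg ULift.down (Sum.inr_injective hab)
    have hev : ∀ᶠ i in (U : Filter I), ∀ s ∈ B, i ∈ g {s} := by
      rw [Filter.eventually_all_finset]
      intro s _
      exact hgU {s}
    filter_upwards [hev] with i hi
    rw [← hBc]
    exact Finset.card_le_card fun s hs => (hAi i s).2 (hi s hs)
  -- the family `x ↦ (T i x)_i`
  have hmem : ∀ x : W, Memℓp (fun i => T i x) ∞ := by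
    intro x
    refine memℓp_infty ⟨(lam * ‖t‖ + 1) * ‖x‖, ?_⟩
    rintro _ ⟨i, rfl⟩
    exact ((T i).le_opNorm x).trans (mul_le_mul_of_nonneg_right (hTb i) (norm_nonneg _))
  let Φ : W →ₗ[𝕜] lp X ∞ :=
    { toFun := fun x => ⟨fun i => T i x, hmem x⟩
      map_add' := by
        intro x y
        ext i
        show T i (x + y) = T i x + T i y
        exact map_add _ _ _
      map_smul' := by
        intro c x
        ext i
        show T i (c • x) = c • T i x
        exact map_smul _ _ _ }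
  have hΦ : ∀ x i, Φ x i = T i x := fun _ _ => rfl
  have hlt : 0 ≤ lam * ‖t‖ := by positivity
  have hΦn : ∀ x, ‖mkU 𝕜 U X (Φ x)‖ ≤ (lam * ‖t‖) * ‖x‖ := by
    intro x
    refine le_of_forall_pos_le_add fun ε hε => ?_
    refine mkU_norm_le_of_eventually _ (by positivity) ?_
    obtain ⟨n, hn⟩ := exists_nat_gt (‖x‖ / ε)
    filter_upwards [hcard n] with i hi
    rw [hΦ]
    refine ((T i).le_opNorm x).trans ?_
    have h1 : ‖T i‖ ≤ lam * ‖t‖ + 1 / ((n : ℝ) + 1) := by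
      refine (hT1 i).trans ?_
      have : 1 / (((Ai i).card : ℝ) + 1) ≤ 1 / ((n : ℝ) + 1) :=
        one_div_le_one_div_of_le (by positivity) (by
          have : ((n + 1 : ℕ) : ℝ) ≤ (Ai i).card := by exact_mod_cast hi
          push_cast at this
          linarith)
      linarith
    have h2 : 1 / ((n : ℝ) + 1) * ‖x‖ ≤ ε := by
      rw [div_lt_iff₀ hε] at hn
      rw [one_div, inv_mul_le_iff₀ (by positivity)]
      nlinarith
    calc ‖T i‖ * ‖x‖ ≤ (lam * ‖t‖ + 1 / ((n : ℝ) + 1)) * ‖x‖ :=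
          mul_le_mul_of_nonneg_right h1 (norm_nonneg _)
      _ = (lam * ‖t‖) * ‖x‖ + 1 / ((n : ℝ) + 1) * ‖x‖ := by ring
      _ ≤ (lam * ‖t‖) * ‖x‖ + ε := by linarith
  let TT : W →L[𝕜] UProd 𝕜 U X := LinearMap.mkContinuous ((mkU 𝕜 U X).comp Φ) (lam * ‖t‖) hΦn
  have hTT : ∀ x, TT x = mkU 𝕜 U X (Φ x) := fun _ => rfl
  refine ⟨TT, ?_, LinearMap.mkContinuous_norm_le _ hlt _⟩
  -- agreement on the dense set
  have hDeq : ∀ d ∈ D, TT (d : W) = t d := by
    intro d hd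
    rw [hTT, ← hτ d, mkU_eq_iff, Metric.tendsto_nhds]
    intro ε hε
    obtain ⟨n, hn⟩ := exists_nat_one_div_lt hε
    filter_upwards [hcard n, hgU {(Sum.inl ⟨d, hd⟩ : S)}] with i hi1 hi2
    have hs : (Sum.inl ⟨d, hd⟩ : S) ∈ Ai i := (hAi i _).2 hi2
    have h1 := hT2 i ⟨_, hs⟩ _ hs
    have h2 : v (Sum.inl ⟨d, hd⟩ : S) = d := rfl
    rw [h2] at h1
    have h3 : (Φ (d : W) - τ d) i = T i (d : W) - τ d i := rfl
    rw [Real.dist_eq, sub_zero, abs_norm, h3]
    refine lt_of_le_of_lt (h1.trans ?_) hn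
    exact one_div_le_one_div_of_le (by positivity) (by
      have : ((n + 1 : ℕ) : ℝ) ≤ (Ai i).card := by exact_mod_cast hi1
      push_cast at this
      linarith)
  have hcont1 : Continuous fun y : Y => TT (y : W) := TT.continuous.comp continuous_subtype_val
  have heq := Continuous.ext_on hD hcont1 t.continuous hDeq
  intro y
  exact congrFun heq y

/-- density characters of subspaces -/
lemma dens_sub_lt {W : Type u} [NormedAddCommGroup W] [NormedSpace 𝕜 W] (Y : Submodule 𝕜 W)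
    {κ : Cardinal.{u}} (hκ : ℵ₀ < κ) (h : dens W < κ) : dens Y < κ := by
  classical
  obtain ⟨D, hD, hDc⟩ : ∃ D : Set W, Dense D ∧ #D < κ := by
    have hne : {c : Cardinal.{u} | ∃ S : Set W, Dense S ∧ #S = c}.Nonempty :=
      ⟨_, Set.univ, dense_univ, rfl⟩
    obtain ⟨D, hD, hc⟩ := csInf_mem hne
    exact ⟨D, hD, by rw [hc]; exact h⟩
  let c : D × ℕ → Y := fun p => if h : ∃ y : Y, dist (y : W) p.1 < 1 / ((p.2 : ℝ) + 1) then
    h.choose else 0
  have hc : ∀ p : D × ℕ, (∃ y : Y, dist (y : W) p.1 < 1 / ((p.2 : ℝ) + 1)) →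
      dist ((c p : Y) : W) p.1 < 1 / ((p.2 : ℝ) + 1) := by
    intro p hp
    simp only [c, hp, dif_pos]
    exact hp.choose_spec
  have hdense : Dense (Set.range c) := by
    rw [Metric.dense_iff]
    intro y ε hε
    obtain ⟨n, hn⟩ := exists_nat_one_div_lt (half_pos hε)
    obtain ⟨d, hd, hd'⟩ := Metric.dense_iff.1 hD (y : W) (1 / ((n : ℝ) + 1)) (by positivity)
    have h1 : dist (y : W) d < 1 / ((n : ℝ) + 1) := by
      rw [dist_comm]; exact Metric.mem_ball.1 hd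
    refine ⟨c (⟨d, hd'⟩, n), ?_, ⟨_, rfl⟩⟩
    have h2 := hc (⟨d, hd'⟩, n) ⟨y, h1⟩
    rw [Metric.mem_ball, Subtype.dist_eq]
    calc dist ((c (⟨d, hd'⟩, n) : Y) : W) y ≤ dist ((c (⟨d, hd'⟩, n) : Y) : W) d + dist d (y : W) :=
          dist_triangle _ _ _
      _ < 1 / ((n : ℝ) + 1) + 1 / ((n : ℝ) + 1) := by
          refine add_lt_add h2 ?_
          rw [dist_comm]; exact h1
      _ < ε := by linarith
  have hcard : #(Set.range c) < κ := by
    refine lt_of_le_of_lt Cardinal.mk_range_le ?_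
    rw [Cardinal.mk_prod, Cardinal.lift_uzero, Cardinal.mk_nat, Cardinal.lift_aleph0]
    exact Cardinal.mul_lt_of_lt hκ.le hDc hκ
  refine lt_of_le_of_lt (csInf_le' ?_) hcard
  exact ⟨_, hdense, rfl⟩

end Pool.Agent.Q199.Ultra
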